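import Pool.Agent.N71.BI.Stm
import Pool.Agent.H38R2.CG.N6
import Pool.Agent.H38R2.CG.KF
import Pool.Agent.H38R2.CG.N0
import Pool.Agent.H38R2.CG.N2
import Pool.Agent.H38R2.CG.SPL

/-!
# COL: the near collisions of a finite set of ideals of norm at most `Z`

Project BI (helper71), part COL (helper415), adapted from `H38R2/CG/N6.lean`.
-/

set_option autoImplicit false

namespace Pool.Agent.N415.BI

open Finset Filter NumberField Pool.Agent.H38R2.CG
open scoped Classical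

lemma chi_abs_le (D : ℤ) (n : ℕ) : |chi D n| ≤ 1 := by
  unfold chi
  rw [abs_mul, abs_pow]
  have h1 : |chi2 D| ≤ 1 := by
    unfold chi2
    split_ifs <;> simp
  have h2 : |jacobiSym D (n / 2 ^ padicValNat 2 n)| ≤ 1 := by
    rcases jacobiSym.trichotomy D (n / 2 ^ padicValNat 2 n) with h | h | h <;> simp [h]
  calc |chi2 D| ^ padicValNat 2 n * |jacobiSym D (n / 2 ^ padicValNat 2 n)| ≤ 1 * 1 := by
        gcongr
        exact pow_le_one₀ (abs_nonneg _) h1
    _ = 1 := one_mul 1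

section NF
variable {K : Type} [Field K] [NumberField K]

lemma claimB' {D : ℕ} (e : Emb K D)
    (N : ℕ) (hN : 0 < N) (UA UB : Finset (Ideal (𝓞 K)))
    (F : Ideal (𝓞 K) → Ideal (𝓞 K) → Finset K)
    (hF : ∀ A ∈ UA, ∀ B ∈ UB, ∀ x ∈ F A B, x ∈ XAB e A B) (c : ℕ × ℤ) :
    ∑ A ∈ UA, ∑ B ∈ UB, ∑ x ∈ F A B, (if N6h.rel e N x c then (1 : ℝ) else 0) ≤ UB.card := by
  have hNr : ((N : ℕ) : ℝ) ≠ 0 := by exact_mod_cast hN.ne'
  by_cases hex : ∃ A ∈ UA, ∃ B ∈ UB, ∃ x ∈ F A B, N6h.rel e N x c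
  swap
  · push Not at hex
    have h0 : ∑ A ∈ UA, ∑ B ∈ UB, ∑ x ∈ F A B,
        (if N6h.rel e N x c then (1 : ℝ) else 0) = 0 := by
      apply Finset.sum_eq_zero
      intro A hA
      apply Finset.sum_eq_zero
      intro B hB
      apply Finset.sum_eq_zero
      intro x hx
      rw [if_neg (hex A hA B hB x hx)]
    rw [h0]
    positivity
  obtain ⟨A0, hA0, B0, hB0, x0, hx0, hr0⟩ := hex
  have huniq : ∀ x : K, N6h.rel e N x c → x = x0 := by
    intro x hx
    have h1 : e.σ x * (N : ℕ) = e.σ x0 * (N : ℕ) := hx.1.trans hr0.1.symm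
    exact e.σ.injective (mul_right_cancel₀ hNr h1)
  have hx0ne : x0 ≠ 0 := by
    rintro rfl
    have h1 := (hF A0 hA0 B0 hB0 0 hx0).1
    simp at h1
  have step1 : ∀ A ∈ UA, ∀ B ∈ UB, ∑ x ∈ F A B,
      (if N6h.rel e N x c then (1 : ℝ) else 0) ≤ if x0 ∈ F A B then 1 else 0 := by
    intro A hA B hB
    calc ∑ x ∈ F A B, (if N6h.rel e N x c then (1 : ℝ) else 0)
        ≤ ∑ x ∈ F A B, (if x = x0 then (1 : ℝ) else 0) := by
          apply Finset.sum_le_sum
          intro x hx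
          by_cases hr : N6h.rel e N x c
          · rw [if_pos hr, if_pos (huniq x hr)]
          · rw [if_neg hr]; split_ifs <;> norm_num
      _ = if x0 ∈ F A B then 1 else 0 := by
          rw [Finset.sum_ite_eq']
  have hAuniq : ∀ B ∈ UB, ∀ A ∈ UA, ∀ A' ∈ UA, x0 ∈ F A B → x0 ∈ F A' B → A = A' := by
    intro B hB A hA A' hA' h1 h2
    have h3 := (hF A hA B hB x0 h1).2.2
    have h4 := (hF A' hA' B hB x0 h2).2.2
    apply FractionalIdeal.coeIdeal_injective (K := K)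
    have h5 : FractionalIdeal.spanSingleton (nonZeroDivisors (𝓞 K)) x0 ≠ 0 :=
      FractionalIdeal.spanSingleton_ne_zero_iff.2 hx0ne
    exact mul_left_cancel₀ h5 (h3.trans h4.symm)
  have step2 : ∀ B ∈ UB, ∑ A ∈ UA, (if x0 ∈ F A B then (1 : ℝ) else 0) ≤ 1 := by
    intro B hB
    rw [Finset.sum_boole]
    have : (UA.filter (fun A => x0 ∈ F A B)).card ≤ 1 := by
      apply Finset.card_le_one.2
      intro A hA A' hA'
      rw [Finset.mem_filter] at hA hA'
      exact hAuniq B hB A hA.1 A' hA'.1 hA.2 hA'.2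
    exact_mod_cast this
  calc ∑ A ∈ UA, ∑ B ∈ UB, ∑ x ∈ F A B, (if N6h.rel e N x c then (1 : ℝ) else 0)
      ≤ ∑ A ∈ UA, ∑ B ∈ UB, (if x0 ∈ F A B then (1 : ℝ) else 0) :=
        Finset.sum_le_sum (fun A hA => Finset.sum_le_sum (fun B hB => step1 A hA B hB))
    _ = ∑ B ∈ UB, ∑ A ∈ UA, (if x0 ∈ F A B then (1 : ℝ) else 0) := Finset.sum_comm
    _ ≤ ∑ B ∈ UB, (1 : ℝ) := Finset.sum_le_sum (fun B hB => step2 B hB)
    _ = UB.card := by rw [Finset.sum_const, nsmul_eq_mul, mul_one]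

lemma pair_le {D : ℕ} (hD : IsFund D) (hfin : Module.finrank ℚ K = 2)
    (hdisc : NumberField.discr K = (D : ℤ)) (e : Emb K D) (N M : ℕ) (hN : 0 < N) (hM : 0 < M)
    (UA UB : Finset (Ideal (𝓞 K))) (hUA : ∀ A ∈ UA, Ideal.absNorm A = N)
    (hUB : ∀ B ∈ UB, Ideal.absNorm B = M) :
    ∑ A ∈ UA, ∑ B ∈ UB, KAB e A B ≤ UB.card * Rsum D (N * M) := by
  have hKF : P_KF := T_KF
  have hA0 : ∀ A ∈ UA, A ≠ ⊥ := by
    rintro A hA rfl
    have := hUA _ hA
    simp at this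
    omega
  have hB0 : ∀ B ∈ UB, B ≠ ⊥ := by
    rintro B hB rfl
    have := hUB _ hB
    simp at this
    omega
  let F : Ideal (𝓞 K) → Ideal (𝓞 K) → Finset K := fun A B =>
    if h : A ≠ ⊥ ∧ B ≠ ⊥ then (hKF K D hD hfin hdisc e A B h.1 h.2).toFinset else ∅
  have hF : ∀ A ∈ UA, ∀ B ∈ UB, ∀ x : K, x ∈ F A B ↔
      x ∈ XAB e A B ∧ |Real.log (e.σ x / e.τ x)| ≤ 1 := by
    intro A hA B hB x
    show x ∈ (if h : A ≠ ⊥ ∧ B ≠ ⊥ then (hKF K D hD hfin hdisc e A B h.1 h.2).toFinset else ∅) ↔ _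
    rw [dif_pos ⟨hA0 A hA, hB0 B hB⟩, Set.Finite.mem_toFinset]
    rfl
  have hK : ∀ A ∈ UA, ∀ B ∈ UB, KAB e A B = ∑ x ∈ F A B, phi (Real.log (e.σ x / e.τ x)) := by
    intro A hA B hB
    unfold KAB
    apply finsum_mem_eq_sum_of_inter_support_eq
    ext x
    simp only [Set.mem_inter_iff, Finset.mem_coe, hF A hA B hB x, Function.mem_support]
    constructor
    · rintro ⟨h1, h2⟩
      exact ⟨⟨h1, (N6h.phi_ne h2).le⟩, h2⟩
    · rintro ⟨⟨h1, -⟩, h2⟩
      exact ⟨h1, h2⟩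
  rw [N6h.Rsum_eq]
  calc ∑ A ∈ UA, ∑ B ∈ UB, KAB e A B
      = ∑ A ∈ UA, ∑ B ∈ UB, ∑ x ∈ F A B, phi (Real.log (e.σ x / e.τ x)) :=
        Finset.sum_congr rfl (fun A hA => Finset.sum_congr rfl (fun B hB => hK A hA B hB))
    _ ≤ ∑ A ∈ UA, ∑ B ∈ UB, ∑ x ∈ F A B, ∑ c ∈ N6h.box (N * M),
          (if N6h.rel e N x c then N6h.Rc D (N * M) c else 0) := by
        refine Finset.sum_le_sum (fun A hA => Finset.sum_le_sum (fun B hB =>
          Finset.sum_le_sum (fun x hx => ?_)))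
        exact N6h.claimA hD.1 e hfin A B N M hN hM (hUA A hA) (hUB B hB) x
          ((hF A hA B hB x).1 hx).1
    _ = ∑ c ∈ N6h.box (N * M), N6h.Rc D (N * M) c *
          ∑ A ∈ UA, ∑ B ∈ UB, ∑ x ∈ F A B,
            (if N6h.rel e N x c then (1 : ℝ) else 0) := by
        simp_rw [Finset.mul_sum]
        rw [Finset.sum_comm (s := N6h.box (N * M))]
        refine Finset.sum_congr rfl (fun A _ => ?_)
        rw [Finset.sum_comm (s := N6h.box (N * M))]
        refine Finset.sum_congr rfl (fun B _ => ?_)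
        rw [Finset.sum_comm (s := N6h.box (N * M))]
        refine Finset.sum_congr rfl (fun x _ => Finset.sum_congr rfl (fun c _ => ?_))
        split_ifs
        · rw [mul_one]
        · rw [mul_zero]
    _ ≤ ∑ c ∈ N6h.box (N * M), N6h.Rc D (N * M) c * UB.card := by
        refine Finset.sum_le_sum (fun c _ => mul_le_mul_of_nonneg_left ?_ (N6h.Rc_nonneg _ _ _))
        exact claimB' e N hN UA UB F
          (fun A hA B hB x hx => ((hF A hA B hB x).1 hx).1) c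
    _ = UB.card * ∑ c ∈ N6h.box (N * M), N6h.Rc D (N * M) c := by
        rw [← Finset.sum_mul, mul_comm]

lemma card_le {D : ℕ} (hD : IsFund D) (hfin : Module.finrank ℚ K = 2)
    (hdisc : NumberField.discr K = (D : ℤ)) (M : ℕ) (hM : 0 < M)
    (UB : Finset (Ideal (𝓞 K))) (hUB : ∀ B ∈ UB, Ideal.absNorm B = M) :
    UB.card ≤ M.divisors.card := by
  have h_P_N2 : P_N2 := T_N2 (T_SPL T_N0)
  have h1 := h_P_N2 K D hD hfin hdisc M hM
  have hfin2 : Finite {I : Ideal (𝓞 K) // Ideal.absNorm I = M} :=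
    (Ideal.finite_setOfPred_absNorm_eq (S := 𝓞 K) M).to_subtype
  have h2 : UB.card ≤ Nat.card {I : Ideal (𝓞 K) // Ideal.absNorm I = M} := by
    rw [← Nat.card_eq_finsetCard]
    refine Nat.card_le_card_of_injective
      (fun B : UB => (⟨B.1, hUB B.1 B.2⟩ : {I : Ideal (𝓞 K) // Ideal.absNorm I = M})) ?_
    intro B B' h
    exact Subtype.ext (Subtype.mk.inj h)
  have h3 : ∑ m ∈ M.divisors, chi D m ≤ (M.divisors.card : ℤ) := by
    calc ∑ m ∈ M.divisors, chi D m ≤ ∑ m ∈ M.divisors, (1 : ℤ) :=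
          Finset.sum_le_sum fun m _ => (abs_le.1 (chi_abs_le D m)).2
      _ = _ := by rw [Finset.sum_const, nsmul_eq_mul, mul_one]
  rw [← h1] at h3
  have h4 : Nat.card {I : Ideal (𝓞 K) // Ideal.absNorm I = M} ≤ M.divisors.card := by
    exact_mod_cast h3
  exact h2.trans h4

end NF

lemma Rsum_nonneg (D n : ℕ) : 0 ≤ Rsum D n := by
  rw [N6h.Rsum_eq]
  exact Finset.sum_nonneg fun c _ => N6h.Rc_nonneg _ _ _

lemma double_sum (D Z : ℕ) : ∑ N ∈ Finset.Icc 1 Z, ∑ M ∈ Finset.Icc 1 Z,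
    (M.divisors.card : ℝ) * Rsum D (N * M) ≤
      ∑ n ∈ Finset.Icc 1 (Z ^ 2), (n.divisors.card : ℝ) ^ 2 * Rsum D n := by
  rw [← Finset.sum_product' (f := fun N M : ℕ => (M.divisors.card : ℝ) * Rsum D (N * M))]
  rw [← Finset.sum_fiberwise_of_maps_to (s := Finset.Icc 1 Z ×ˢ Finset.Icc 1 Z)
    (t := Finset.Icc 1 (Z ^ 2)) (g := fun p : ℕ × ℕ => p.1 * p.2)]
  · refine Finset.sum_le_sum fun n hn => ?_
    have hn1 : n ≠ 0 := by
      have := (Finset.mem_Icc.1 hn).1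
      omega
    have h1 : ∀ p ∈ (Finset.Icc 1 Z ×ˢ Finset.Icc 1 Z).filter (fun p : ℕ × ℕ => p.1 * p.2 = n),
        (p.2.divisors.card : ℝ) * Rsum D (p.1 * p.2) ≤ (n.divisors.card : ℝ) * Rsum D n := by
      intro p hp
      have hp2 := (Finset.mem_filter.1 hp).2
      rw [hp2]
      refine mul_le_mul_of_nonneg_right ?_ (Rsum_nonneg D n)
      have h2 : p.2.divisors.card ≤ n.divisors.card :=
        Finset.card_le_card (Nat.divisors_subset_of_dvd hn1 ⟨p.1, by rw [← hp2, mul_comm]⟩)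
      exact_mod_cast h2
    have h3 : ((Finset.Icc 1 Z ×ˢ Finset.Icc 1 Z).filter
        (fun p : ℕ × ℕ => p.1 * p.2 = n)).card ≤ n.divisors.card := by
      refine Finset.card_le_card_of_injOn Prod.fst ?_ ?_
      · intro p hp
        have hp2 := (Finset.mem_filter.1 (Finset.mem_coe.1 hp)).2
        exact Finset.mem_coe.2 (Nat.mem_divisors.2 ⟨⟨p.2, hp2.symm⟩, hn1⟩)
      · intro p hp q hq h
        have hp2 := (Finset.mem_filter.1 (Finset.mem_coe.1 hp)).2
        have hq2 := (Finset.mem_filter.1 (Finset.mem_coe.1 hq)).2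
        have hp0 : 0 < p.1 := by
          rcases Nat.eq_zero_or_pos p.1 with h0 | h0
          · rw [h0, zero_mul] at hp2
            exact absurd hp2.symm hn1
          · exact h0
        refine Prod.ext h ?_
        rw [← hq2, ← h] at hp2
        exact Nat.eq_of_mul_eq_mul_left hp0 hp2
    have h5 : 0 ≤ (n.divisors.card : ℝ) * Rsum D n := mul_nonneg (by positivity) (Rsum_nonneg D n)
    calc _ ≤ ∑ p ∈ (Finset.Icc 1 Z ×ˢ Finset.Icc 1 Z).filter (fun p : ℕ × ℕ => p.1 * p.2 = n),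
          (n.divisors.card : ℝ) * Rsum D n := Finset.sum_le_sum h1
      _ = (((Finset.Icc 1 Z ×ˢ Finset.Icc 1 Z).filter
          (fun p : ℕ × ℕ => p.1 * p.2 = n)).card : ℝ) * ((n.divisors.card : ℝ) * Rsum D n) := by
          rw [Finset.sum_const, nsmul_eq_mul]
      _ ≤ (n.divisors.card : ℝ) * ((n.divisors.card : ℝ) * Rsum D n) :=
          mul_le_mul_of_nonneg_right (by exact_mod_cast h3) h5
      _ = _ := by ring
  · intro p hp
    rw [Finset.mem_product, Finset.mem_Icc, Finset.mem_Icc] at hp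
    rw [Finset.mem_Icc]
    refine ⟨Nat.mul_pos hp.1.1 hp.2.1, ?_⟩
    rw [pow_two]
    exact Nat.mul_le_mul hp.1.2 hp.2.2

theorem t_COL : Pool.Agent.N71.BI.E_COL := by
  intro K _ _ D hD hfin hdisc e Z F hF
  have hmaps : ∀ A ∈ F, Ideal.absNorm A ∈ Finset.Icc 1 Z := by
    intro A hA
    rw [Finset.mem_Icc]
    refine ⟨?_, (hF A hA).2⟩
    have h1 : Ideal.absNorm A ≠ 0 := fun h => (hF A hA).1 (Ideal.absNorm_eq_zero_iff.1 h)
    omega
  have h1 : ∑ A ∈ F, ∑ B ∈ F, KAB e A B = ∑ N ∈ Finset.Icc 1 Z, ∑ M ∈ Finset.Icc 1 Z,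
      ∑ A ∈ F.filter (fun A => Ideal.absNorm A = N), ∑ B ∈ F.filter (fun B => Ideal.absNorm B = M),
        KAB e A B := by
    rw [← Finset.sum_fiberwise_of_maps_to hmaps]
    refine Finset.sum_congr rfl fun N _ => ?_
    rw [Finset.sum_comm (s := Finset.Icc 1 Z)]
    refine Finset.sum_congr rfl fun A _ => ?_
    rw [Finset.sum_fiberwise_of_maps_to hmaps]
  rw [h1]
  refine le_trans (Finset.sum_le_sum fun N hN => Finset.sum_le_sum fun M hM => ?_) (double_sum D Z)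
  have hN0 : 0 < N := (Finset.mem_Icc.1 hN).1
  have hM0 : 0 < M := (Finset.mem_Icc.1 hM).1
  have h2 := pair_le hD hfin hdisc e N M hN0 hM0 (F.filter (fun A => Ideal.absNorm A = N))
    (F.filter (fun B => Ideal.absNorm B = M)) (fun A hA => (Finset.mem_filter.1 hA).2)
    (fun B hB => (Finset.mem_filter.1 hB).2)
  have h3 := card_le hD hfin hdisc M hM0 (F.filter (fun B => Ideal.absNorm B = M))
    (fun B hB => (Finset.mem_filter.1 hB).2)
  refine h2.trans (mul_le_mul_of_nonneg_right ?_ (Rsum_nonneg _ _))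
  exact_mod_cast h3

end Pool.Agent.N415.BI
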